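import Pool.Agent.L0h29.AL.ArtDefs7
import Pool.Agent.L0h68.AL.Cug
import Pool.Agent.L0h81.AL.Fca

/-!
# Module ACO of project AL5: areas are computable
-/

set_option autoImplicit false

namespace Pool.Agent.L0h65.AL

open Pool.Agent.K7.H20.AW Pool.Agent.L0h29.AL Pool.Agent.L0h68.AL

/-! ## 1. free reduction -/

/-- one step of the free reduction -/
def stp (p : ℕ × Bool) (r : List (ℕ × Bool)) : List (ℕ × Bool) :=
  if r.head? = some (p.1, !p.2) then r.tail else p :: r

theorem reduce_eq (w : List (ℕ × Bool)) : FreeGroup.reduce w = w.foldr stp [] := by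
  induction w with
  | nil => rfl
  | cons p w ih =>
    rw [FreeGroup.reduce.cons, ih, List.foldr_cons]
    cases h : w.foldr stp [] with
    | nil => simp [stp]
    | cons q r =>
      rcases p with ⟨a, b⟩
      rcases q with ⟨c, e⟩
      simp only [stp, List.head?_cons, List.tail_cons, Option.some.injEq, Prod.mk.injEq]
      by_cases h1 : a = c
      · subst h1
        cases b <;> cases e <;> simp
      · rw [if_neg (fun h2 => h1 h2.1), if_neg (fun h2 => h1 h2.1.symm)]

theorem prim_reduce : Primrec (FreeGroup.reduce : List (ℕ × Bool) → List (ℕ × Bool)) := by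
  have hs : Primrec₂ fun (_ : List (ℕ × Bool)) (p : (ℕ × Bool) × List (ℕ × Bool)) =>
      stp p.1 p.2 := by
    have hp : Primrec fun x : List (ℕ × Bool) × (ℕ × Bool) × List (ℕ × Bool) => x.2.1 :=
      Primrec.fst.comp Primrec.snd
    have hr : Primrec fun x : List (ℕ × Bool) × (ℕ × Bool) × List (ℕ × Bool) => x.2.2 :=
      Primrec.snd.comp Primrec.snd
    exact Primrec.ite (Primrec.eq.comp (Primrec.list_head?.comp hr)
      (Primrec.option_some.comp (Primrec.pair (Primrec.fst.comp hp)
        (Primrec.not.comp (Primrec.snd.comp hp)))))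
      (Primrec.list_tail.comp hr) (Primrec.list_cons.comp hp hr)
  refine (Primrec.list_foldr (f := fun l : List (ℕ × Bool) => l) (g := fun _ => [])
    (h := fun _ p => stp p.1 p.2) Primrec.id (Primrec.const []) hs).of_eq fun w => ?_
  rw [reduce_eq]

/-! ## 2. enumeration -/

theorem cls2 (α β : Type) [Primcodable α] [Primcodable β] (e : α → List β) (he : Primrec e) :
    ∃ E : α → ℕ → List (List β), Primrec₂ E ∧
      ∀ a k l, l ∈ E a k ↔ l.length ≤ k ∧ ∀ b ∈ l, b ∈ e a := by
  let E : α → ℕ → List (List β) := fun a k => Nat.rec (motive := fun _ => List (List β)) [[]]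
    (fun _ r => [] :: (e a).flatMap fun b => r.map fun l => b :: l) k
  refine ⟨E, ?_, ?_⟩
  · refine Primrec.nat_rec (f := fun _ => [[]]) (g := fun N p =>
      [] :: (e N).flatMap fun b => p.2.map fun l => b :: l) (Primrec.const _) ?_
    have h1 : Primrec (fun x : (α × ℕ × List (List β)) => (e x.1).flatMap fun b =>
        x.2.2.map fun l => b :: l) := by
      refine Primrec.list_flatMap (he.comp Primrec.fst) ?_
      refine Primrec.list_map (f := fun x : (α × ℕ × List (List β)) × β => x.1.2.2)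
        (g := fun x l => x.2 :: l) ?_ ?_
      · exact Primrec.snd.comp (Primrec.snd.comp Primrec.fst)
      · exact Primrec.list_cons.comp (Primrec.snd.comp Primrec.fst) Primrec.snd
    exact Primrec.list_cons.comp (Primrec.const []) h1
  · intro N k
    induction k with
    | zero =>
      intro l
      have hE0 : E N 0 = [[]] := rfl
      rw [hE0, List.mem_singleton]
      constructor
      · rintro rfl; simp
      · rintro ⟨h, _⟩
        exact List.length_eq_zero_iff.1 (Nat.le_zero.1 h)
    | succ k ih =>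
      intro l
      have hE : E N (k + 1) = [] :: (e N).flatMap fun b => (E N k).map fun l => b :: l := rfl
      rw [hE, List.mem_cons, List.mem_flatMap]
      constructor
      · rintro (rfl | ⟨b, hb, hl⟩)
        · simp
        · obtain ⟨l', hl', rfl⟩ := List.mem_map.1 hl
          have := (ih l').1 hl'
          refine ⟨by simp [this.1], ?_⟩
          intro c hc
          rcases List.mem_cons.1 hc with rfl | hc
          · exact hb
          · exact this.2 c hc
      · rintro ⟨h1, h2⟩
        cases l with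
        | nil => exact Or.inl rfl
        | cons b l' =>
          right
          refine ⟨b, h2 b (by simp), List.mem_map.2 ⟨l', (ih l').2 ⟨?_, ?_⟩, rfl⟩⟩
          · simpa using h1
          · intro c hc
            exact h2 c (List.mem_cons_of_mem _ hc)

/-! ## 3. from `Fin n` to `ℕ` -/

theorem mk_up {n : ℕ} (u : List (Fin n × Bool)) :
    FreeGroup.mk (u.map L0h68.AL.up) = FreeGroup.map Fin.val (FreeGroup.mk u) := by
  rw [FreeGroup.map.mk]
  rfl

theorem exw_upc {n : ℕ} (L : List (List ℕ))
    (c : List (List (Fin n × Bool) × Fin n × Fin n × Bool)) :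
    exw (labN n L) (upc c) = (exw (fun i j => mat n L i j) c).map L0h68.AL.up := by
  have h := Pool.Agent.L0h81.AL.map_exw (Fin.val : Fin n → ℕ) (labN n L) c
  have h1 : (fun i j : Fin n => labN n L i.val j.val) = fun i j => mat n L i j := by
    funext i j
    exact labN_eq i j
  rw [h1] at h
  exact h

theorem lift_w {n : ℕ} : ∀ u : List (ℕ × Bool), (∀ a ∈ u, a.1 < n) →
    ∃ u' : List (Fin n × Bool), u'.map L0h68.AL.up = u
  | [], _ => ⟨[], rfl⟩
  | p :: u, h => by
    obtain ⟨u', hu⟩ := lift_w u fun a ha => h a (List.mem_cons_of_mem _ ha)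
    exact ⟨(⟨p.1, h p List.mem_cons_self⟩, p.2) :: u', by rw [List.map_cons, hu]; rfl⟩

theorem lift_c {n N : ℕ} : ∀ c : List (List (ℕ × Bool) × ℕ × ℕ × Bool),
    (∀ p ∈ c, (p.1.length ≤ N ∧ ∀ a ∈ p.1, a.1 < n) ∧ p.2.1 < n ∧ p.2.2.1 < n) →
    ∃ c' : List (List (Fin n × Bool) × Fin n × Fin n × Bool), upc c' = c ∧
      ∀ p ∈ c', p.1.length ≤ N
  | [], _ => ⟨[], rfl, by simp⟩
  | p :: c, h => by
    obtain ⟨c', hc, hc2⟩ := lift_c c fun a ha => h a (List.mem_cons_of_mem _ ha)
    obtain ⟨⟨h1, h2⟩, h3, h4⟩ := h p List.mem_cons_self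
    obtain ⟨u, hu⟩ := lift_w p.1 h2
    refine ⟨(u, ⟨p.2.1, h3⟩, ⟨p.2.2.1, h4⟩, p.2.2.2) :: c', ?_, ?_⟩
    · rw [← hc]
      unfold upc
      rw [List.map_cons, hu]
    · intro q hq
      rcases List.mem_cons.1 hq with rfl | hq
      · rw [← List.length_map (f := L0h68.AL.up), hu]
        exact h1
      · exact hc2 q hq

theorem area_iff {n : ℕ} (L : List (List ℕ)) (w : List (Fin n × Bool)) (N : ℕ) :
    Area (mat n L) w N ↔ ∃ c : List (List (ℕ × Bool) × ℕ × ℕ × Bool), (c.length ≤ N ∧
      ∀ p ∈ c, (p.1.length ≤ N ∧ ∀ a ∈ p.1, a.1 < n) ∧ p.2.1 < n ∧ p.2.2.1 < n) ∧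
      FreeGroup.reduce (w.map L0h68.AL.up) = FreeGroup.reduce (exw (labN n L) c) := by
  constructor
  · rintro ⟨c, h1, h2, h3⟩
    refine ⟨upc c, ⟨?_, ?_⟩, ?_⟩
    · rw [upc, List.length_map]; exact h1
    · intro p hp
      obtain ⟨q, hq, rfl⟩ := List.mem_map.1 hp
      refine ⟨⟨?_, ?_⟩, q.2.1.2, q.2.2.1.2⟩
      · rw [List.length_map]; exact h2 q hq
      · intro a ha
        obtain ⟨b, _, rfl⟩ := List.mem_map.1 ha
        exact b.1.2
    · apply FreeGroup.reduce.sound
      rw [exw_upc, mk_up, mk_up, h3]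
  · rintro ⟨c, ⟨h1, h2⟩, h3⟩
    obtain ⟨c', rfl, hc2⟩ := lift_c c h2
    refine ⟨c', ?_, hc2, ?_⟩
    · rw [upc, List.length_map] at h1; exact h1
    · have h4 := FreeGroup.reduce.exact h3
      rw [exw_upc, mk_up, mk_up] at h4
      exact FreeGroup.map_injective Fin.val_injective h4

/-! ## 4. the algorithm -/

/-- **ACO** -/
theorem aco (hX : S_CEX) : S_ACO := by
  have hr : Primrec fun n : ℕ => (List.range n).product [true, false] :=
    prim_product Primrec.list_range (Primrec.const _)
  obtain ⟨E1, hE1, hE1'⟩ := cls2 ℕ (ℕ × Bool) _ hr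
  obtain ⟨E2, hE2, hE2'⟩ := cls2 (ℕ × ℕ) (List (ℕ × Bool) × ℕ × ℕ × Bool)
    (fun K => (E1 K.1 K.2).product ((List.range K.1).product
      ((List.range K.1).product [true, false])))
    (prim_product (hE1.comp Primrec.fst Primrec.snd)
      (prim_product (Primrec.list_range.comp Primrec.fst)
        (prim_product (Primrec.list_range.comp Primrec.fst) (Primrec.const _))))
  have hmem : ∀ n N c, c ∈ E2 (n, N) N ↔ (c.length ≤ N ∧
      ∀ p ∈ c, (p.1.length ≤ N ∧ ∀ a ∈ p.1, a.1 < n) ∧ p.2.1 < n ∧ p.2.2.1 < n) := by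
    intro n N c
    rw [hE2']
    refine and_congr Iff.rfl (forall₂_congr fun p _ => ?_)
    obtain ⟨u, i, j, b⟩ := p
    rw [List.pair_mem_product, List.pair_mem_product, List.pair_mem_product, hE1',
      List.mem_range, List.mem_range]
    have h1 : b ∈ [true, false] := by cases b <;> simp
    have h2 : (∀ a ∈ u, a ∈ (List.range n).product [true, false]) ↔
        ∀ a ∈ u, a.1 < n := by
      refine forall₂_congr fun a _ => ?_
      obtain ⟨a, b'⟩ := a
      rw [List.pair_mem_product, List.mem_range]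
      have h1 : b' ∈ [true, false] := by cases b' <;> simp
      simp only [h1, and_true]
    rw [h2]
    simp only [h1, and_true]
  refine ⟨fun x => (E2 (x.1.1, x.2.2) x.2.2).any fun c => decide
    (FreeGroup.reduce x.2.1 = FreeGroup.reduce (exw (labN x.1.1 x.1.2) c)), ?_, ?_⟩
  · refine hX _ _ (fun x : (ℕ × List (List ℕ)) × List (ℕ × Bool) × ℕ => E2 (x.1.1, x.2.2) x.2.2)
      (fun x c => decide
        (FreeGroup.reduce x.2.1 = FreeGroup.reduce (exw (labN x.1.1 x.1.2) c))) ?_ ?_
    · have hN : Primrec fun x : (ℕ × List (List ℕ)) × List (ℕ × Bool) × ℕ => x.2.2 :=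
        Primrec.snd.comp Primrec.snd
      exact (hE2.comp (Primrec.pair (Primrec.fst.comp Primrec.fst) hN) hN).to_comp
    · have h1 : PrimrecPred fun z : ((ℕ × List (List ℕ)) × List (ℕ × Bool) × ℕ) ×
          List (List (ℕ × Bool) × ℕ × ℕ × Bool) =>
          FreeGroup.reduce z.1.2.1 = FreeGroup.reduce (exw (labN z.1.1.1 z.1.1.2) z.2) :=
        Primrec.eq.comp (prim_reduce.comp (Primrec.fst.comp (Primrec.snd.comp Primrec.fst)))
          (prim_reduce.comp (prim_exw (Primrec.fst.comp (Primrec.fst.comp Primrec.fst))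
            (Primrec.snd.comp (Primrec.fst.comp Primrec.fst)) Primrec.snd))
      exact h1.decide.to_comp
  · intro n L w N
    rw [area_iff, List.any_eq_true]
    refine exists_congr fun c => ?_
    rw [hmem, decide_eq_true_iff]
    rfl

end Pool.Agent.L0h65.AL
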