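import Pool.Agent.L0h29.AL.ArtDefs7
import Pool.Agent.L0h81.AL.Fca

/-!
# Module FCB of project AL5: bounded areas, uniformly
-/

set_option autoImplicit false

namespace Pool.Agent.L0h65.AL

open Pool.Agent.K7.H20.AW Pool.Agent.K7.H87.FJ6 Pool.Agent.L0h29.AL Pool.Agent.L0h55.AL
  Pool.Agent.L0h81.AL

section gen

variable {B : Type*} (M : CoxeterMatrix B)

theorem g_inj [Fintype B] [DecidableEq B] {b c : B} (h : g M b = g M c) : b = c := by
  by_contra hbc
  have h1 : g M b ^ (1 : ℤ) ∈ P M {b}ᶜ := by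
    rw [zpow_one, h]
    exact g_mem (fun h2 => hbc (Set.mem_singleton_iff.1 h2).symm)
  exact one_ne_zero (pow_mem h1)

theorem lval_append (u v : List (B × Bool)) : lval M (u ++ v) = lval M u * lval M v := by
  simp [lval]

theorem lval_inw (u : List (B × Bool)) : lval M (inw u) = (lval M u)⁻¹ := by
  induction u with
  | nil => simp [lval, inw]
  | cons p u ih =>
    rw [inw_cons, lval_append, ih]
    rcases p with ⟨a, e⟩
    cases e <;> simp [lval]

theorem lval_po (l : List B) : lval M (po l) = (l.map (g M)).prod := by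
  induction l with
  | nil => rfl
  | cons a l ih =>
    have h : lval M (po (a :: l)) = g M a * lval M (po l) := by simp [lval, po]
    rw [h, ih, List.map_cons, List.prod_cons]

theorem eq_of_area.{u} {B : Type u} [Fintype B] [DecidableEq B] (M : CoxeterMatrix B)
    (hARE : S_ARE.{u}) {l l' : List B} {D : ℕ}
    (h : Area M (po l ++ inw (po l')) D) : (l.map (g M)).prod = (l'.map (g M)).prod := by
  have h1 := (hARE B M).1 _ _ h
  rw [lval_append, lval_inw, lval_po, lval_po] at h1
  exact mul_inv_eq_one.1 h1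

end gen

section sub

variable {A B : Type*} (M : CoxeterMatrix B) (ι : A → B) (hι : Function.Injective ι)

theorem inc_prod (l : List A) :
    inc M (z0 B) ι hι ((l.map (g (pull M ι hι))).prod) = ((l.map ι).map (g M)).prod := by
  induction l with
  | nil => exact map_one _
  | cons a l ih =>
    rw [List.map_cons, List.prod_cons, List.map_cons, List.map_cons, List.prod_cons, ← ih]
    refine (map_mul (inc M (z0 B) ι hι) _ _).trans ?_
    congr 1

end sub

theorem kk_mono {a b : ℕ} (h : a ≤ b) : kk a ≤ kk b := by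
  unfold kk
  calc (2 * a + 10) ^ (2 * a + 10) ≤ (2 * b + 10) ^ (2 * a + 10) :=
        Nat.pow_le_pow_left (by omega) _
    _ ≤ (2 * b + 10) ^ (2 * b + 10) := Nat.pow_le_pow_right (by omega) (by omega)

theorem kk_pos (a : ℕ) : 0 < kk a := by
  unfold kk
  positivity

theorem exists_liftB {B : Type*} (X : Finset B) (w : List B) (hw : ∀ a ∈ w, a ∈ X) :
    ∃ w' : List {i // i ∈ X}, w'.map Subtype.val = w := by
  induction w with
  | nil => exact ⟨[], rfl⟩
  | cons p w ih =>
    obtain ⟨w', h⟩ := ih (fun a ha => hw a (List.mem_cons_of_mem _ ha))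
    exact ⟨⟨p, hw p List.mem_cons_self⟩ :: w', by rw [List.map_cons, h]⟩

/-- the bound for the subset `X` -/
theorem spu_sub (hSPU : S_SPU.{0}) (hEMB : S_EMB.{0}) (hARE : S_ARE.{0}) {n : ℕ}
    (M : CoxeterMatrix (Fin n)) (hM : FCs M) (D : ℕ) (X : Finset (Fin n)) (hX : Sm M X)
    (hG : GD M X D) (N : ℕ) (hn : n ≤ N) (w : List (Fin n × Bool)) (hw : ∀ a ∈ w, a.1 ∈ X)
    (h1 : lval M w = 1) (G : ℕ) (hwG : w.length ≤ G) :
    Area M w (kk (N + D) ^ (kk (N + D) * (G + 1))) := by
  obtain ⟨d, hd1, hd2, hd3⟩ := hG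
  obtain ⟨d', hd'⟩ := exists_liftB X d hd2
  have hb : ∀ b : {i // i ∈ X}, ∃ b' : {i // i ∈ X}, ∃ v : List {i // i ∈ X},
      Area M (po (b.1 :: d) ++ inw (po (d ++ [b'.1]))) D ∧
      Area M (po (b'.1 :: d) ++ inw (po (d ++ [b.1]))) D ∧
      Area M (po d ++ inw (po (b.1 :: v.map Subtype.val))) D := by
    intro b
    obtain ⟨b', hb', v, -, hv2, q1, q2, q3⟩ := hd3 b.1 b.2
    obtain ⟨v', hv'⟩ := exists_liftB X v hv2
    exact ⟨⟨b', hb'⟩, v', q1, q2, by rw [hv']; exact q3⟩
  choose σ v q1 q2 q3 using hb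
  set M' := pull M (Subtype.val : {i // i ∈ X} → Fin n) Subtype.val_injective with hM'
  have hfin : Finite M'.Group := hM X hX
  -- equalities in the Artin group of `M'`
  have tr1 : ∀ l l' : List {i // i ∈ X},
      Area M (po (l.map Subtype.val) ++ inw (po (l'.map Subtype.val))) D →
      (l.map (g M')).prod = (l'.map (g M')).prod := by
    intro l l' h
    have h2 := eq_of_area M hARE h
    apply inc_injective (adm0 M) Subtype.val Subtype.val_injective
    refine (inc_prod M Subtype.val Subtype.val_injective l).trans (h2.trans ?_)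
    exact (inc_prod M Subtype.val Subtype.val_injective l').symm
  have e1 : ∀ b, ((b :: d').map (g M')).prod = ((d' ++ [σ b]).map (g M')).prod := by
    intro b
    apply tr1
    have := q1 b
    rw [← hd'] at this
    simpa using this
  have e2 : ∀ b, ((σ b :: d').map (g M')).prod = ((d' ++ [b]).map (g M')).prod := by
    intro b
    apply tr1
    have := q2 b
    rw [← hd'] at this
    simpa using this
  have e3 : ∀ b, (d'.map (g M')).prod = ((b :: v b).map (g M')).prod := by
    intro b
    apply tr1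
    have := q3 b
    rw [← hd'] at this
    simpa using this
  have hσ : ∀ b, σ (σ b) = b := by
    intro b
    apply g_inj M'
    have h2 := (e1 (σ b)).symm.trans (e2 b)
    rw [List.map_append, List.map_append, List.prod_append, List.prod_append] at h2
    have h3 := mul_left_cancel h2
    simpa using h3
  obtain ⟨w', rfl⟩ := exists_lift X w hw
  have h2 : lval M' w' = 1 := by
    apply inc_injective (adm0 M) Subtype.val Subtype.val_injective
    refine (inc_lval M Subtype.val Subtype.val_injective w').trans ?_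
    rw [h1]
    exact (map_one _).symm
  have h3 := hSPU {i // i ∈ X} M' hfin d' σ v hσ
    (fun b => hEMB _ M' hfin _ _ (e1 b)) (fun b => hEMB _ M' hfin _ _ (e3 b)) w' h2
  have h4 := area_map M Subtype.val Subtype.val_injective h3
  refine (hARE (Fin n) M).2.1 _ _ _ ?_ h4
  rw [List.length_map] at hwG
  have h5 : Fintype.card {i // i ∈ X} ≤ n := by
    rw [Fintype.card_coe]
    exact (Finset.card_le_univ X).trans (by rw [Fintype.card_fin])
  have h6 : d'.length ≤ D := by
    rw [← List.length_map (f := Subtype.val), hd']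
    exact hd1
  have h7 : kk (Fintype.card {i // i ∈ X} + d'.length) ≤ kk (N + D) := kk_mono (by omega)
  calc kk (Fintype.card {i // i ∈ X} + d'.length) ^
        (kk (Fintype.card {i // i ∈ X} + d'.length) * (w'.length + 1))
      ≤ kk (N + D) ^ (kk (Fintype.card {i // i ∈ X} + d'.length) * (w'.length + 1)) :=
        Nat.pow_le_pow_left h7 _
    _ ≤ kk (N + D) ^ (kk (N + D) * (G + 1)) :=
      Nat.pow_le_pow_right (kk_pos _) (Nat.mul_le_mul h7 (by omega))

/-- **FCB** -/
theorem fcb (hBIG : S_BIG) (hGPA : S_GPA.{0}) (hSPU : S_SPU.{0}) (hEMB : S_EMB.{0})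
    (hARE : S_ARE.{0}) : S_FCB := by
  intro n M hM D hD w N hnN hwN hMN hw
  obtain ⟨c1, h1, h2, h3⟩ := (hBIG n M w N hnN hwN hMN).1 hw
  set w1 := w ++ exw (fun i j => M i j) c1 with hw1
  have hlen : w1.length ≤ n1 N := by
    rw [hw1, List.length_append]
    have h4 := length_exw (fun i j => M i j) N (ps N) hMN c1 h2
    have h5 : c1.length * (2 * ps N + 2 * N) ≤ ps N * (2 * ps N + 2 * N) :=
      Nat.mul_le_mul_right _ h1
    unfold n1
    omega
  have hnn : n ≤ n1 N := by unfold n1; omega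
  obtain ⟨c2, h4, h5, h6⟩ := hGPA (Fin n) (tr M) w1 h3
  set G := ga (n1 N) (n1 N) with hG
  have hga : ga (Fintype.card (Fin n)) w1.length ≤ G := by
    rw [Fintype.card_fin]
    exact ga_mono hnn hlen
  set E := kk (N + D) ^ (kk (N + D) * (G + 1)) with hE
  have hpc : ∀ p ∈ c2, p.1.length ≤ G ∧ Area M p.2.1 E := by
    intro p hp
    obtain ⟨q1, q2, q3, q4, q5⟩ := h5 p hp
    have hSm : Sm M p.2.2 := by
      intro i hi j hj hij
      have h7 := q3 i hi j hj
      rw [tr_apply, if_neg hij] at h7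
      split_ifs at h7 with h8
      · exact absurd rfl h7
      · exact ⟨h7, not_le.1 h8⟩
    refine ⟨q1.trans hga, spu_sub hSPU hEMB hARE M hM D p.2.2 hSm (hD _ hSm) N hnN p.2.1 q4 ?_ G
      (q2.trans hga)⟩
    have h7 := congrArg (tq M) q5
    rw [tq_lval, map_one] at h7
    exact h7
  have hw1a := area_prod hARE M G E c2 hpc
  have hw1b : Area M w1 (c2.length * (E + G)) :=
    (hARE (Fin n) M).2.2.1 _ _ _ (by rw [mk_flatMap, ← h6]) hw1a
  have hc1 : Area M (exw (fun i j => M i j) c1) (ps N) := ⟨c1, h1, h2, rfl⟩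
  have hc1' := (hARE (Fin n) M).2.2.2.2.1 _ _ hc1
  have hfin := (hARE (Fin n) M).2.2.2.1 _ _ _ _ hw1b hc1'
  have hfin2 : Area M w (c2.length * (E + G) + ps N) := by
    refine (hARE (Fin n) M).2.2.1 _ _ _ ?_ hfin
    rw [mk_append, mk_inw, hw1, mk_append, mul_inv_cancel_right]
  refine (hARE (Fin n) M).2.1 _ _ _ ?_ hfin2
  have h8 : c2.length * (E + G) ≤ G * (E + G) := Nat.mul_le_mul_right _ (h4.trans hga)
  have h9 : E ≤ kk (N + D) ^ (kk (N + D) * (G + 2)) :=
    Nat.pow_le_pow_right (kk_pos _) (Nat.mul_le_mul_left _ (by omega))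
  have h10 : G * (E + G) ≤ (G + 2) * (kk (N + D) ^ (kk (N + D) * (G + 2)) + G + 2) :=
    Nat.mul_le_mul (by omega) (by omega)
  unfold tt
  rw [← hG]
  omega

end Pool.Agent.L0h65.AL
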